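import Pool.Agent.Helper68.QC.St2

namespace Pool.Agent.Helper10.QCM

open Pool.Agent.Helper68.QC
open MeasureTheory Set Filter Topology Complex
open scoped ContDiff ComplexConjugate ENNReal Manifold

/-- Smooth cutoff functions. -/
theorem apx_cutoff {U K : Set ℂ} (hU : IsOpen U) (hK : IsCompact K) (hKU : K ⊆ U) :
    ∃ χ : ℂ → ℂ, Tst U χ ∧ ∀ z ∈ K, χ =ᶠ[𝓝 z] fun _ => (1 : ℂ) := by
  obtain ⟨L, hL, hKL, hLU⟩ := exists_compact_between hK hU hKU
  obtain ⟨g, hg1, hg0, -⟩ := exists_contMDiffMap_one_nhds_of_subset_interior (n := (⊤ : ℕ∞))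
    𝓘(ℝ, ℂ) hK.isClosed hKL
  have hg : ContDiff ℝ ∞ (fun z => g z) := g.contMDiff.contDiff
  refine ⟨fun z => (g z : ℂ), ⟨?_, ?_, ?_⟩, ?_⟩
  · exact Complex.ofRealCLM.contDiff.comp hg
  · apply HasCompactSupport.intro hL
    intro z hz
    rw [hg0 z hz]
    simp
  · refine (closure_minimal ?_ hL.isClosed).trans hLU
    intro z hz
    by_contra h
    apply hz
    change ((g z : ℝ) : ℂ) = 0
    rw [hg0 z h]
    simp
  · intro z hz
    have h1 : ∀ᶠ x in 𝓝 z, g x = 1 := hg1.filter_mono (nhds_le_nhdsSet hz)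
    filter_upwards [h1] with x hx
    rw [hx]
    simp

theorem pAPX (hMO1 : StMO1) (hMO2 : StMO2) (hCUT : StCUT) : Pool.Agent.Helper68.QC.StAPX := by
  intro U f a b hU hW K hKU hK
  obtain ⟨χ, hχ, hχ1⟩ := apx_cutoff hU hK hKU
  obtain ⟨hFc, hA, hB, hWD⟩ := hCUT U f a b χ hU hW hχ
  set F : ℂ → ℂ := fun z => χ z * f z with hF
  set A : ℂ → ℂ := fun z => χ z * a z + dz χ z * f z with hAdef
  set B : ℂ → ℂ := fun z => χ z * b z + dzb χ z * f z with hBdef
  have hFs : HasCompactSupport F := hχ.cpt.mul_right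
  have hdz : ∀ n z, dz (mol n F) z = mol n A z := by
    intro n z
    rw [(hMO1.1 n F hFc.locallyIntegrable).2.1 z,
      hWD.dz _ ((hMO1.2.1 n z).mono (subset_univ _)), neg_neg]
    unfold mol
    exact integral_congr_ae (ae_of_all _ fun y => mul_comm _ _)
  have hdzb : ∀ n z, dzb (mol n F) z = mol n B z := by
    intro n z
    rw [(hMO1.1 n F hFc.locallyIntegrable).2.2 z,
      hWD.dzb _ ((hMO1.2.1 n z).mono (subset_univ _)), neg_neg]
    unfold mol
    exact integral_congr_ae (ae_of_all _ fun y => mul_comm _ _)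
  have h1 : ∀ z ∈ K, χ z = 1 := fun z hz => (hχ1 z hz).self_of_nhds
  have hfd : ∀ z ∈ K, fderiv ℝ χ z = 0 := by
    intro z hz
    rw [(hχ1 z hz).fderiv_eq]
    simp
  have hzero : ∀ z ∈ K, dz χ z = 0 ∧ dzb χ z = 0 := by
    intro z hz
    unfold dz dzb
    rw [hfd z hz]
    simp
  have key : ∀ (a' A' : ℂ → ℂ) (D : ℕ → ℂ → ℂ), MemLp A' 2 volume → (∀ z ∈ K, A' z = a' z) →
      (∀ n z, D n z = mol n A' z) →
      Tendsto (fun n => eLpNorm (fun z => D n z - a' z) 2 (volume.restrict K)) atTop (𝓝 0) := by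
    intro a' A' D hA' hK' hD
    refine tendsto_of_tendsto_of_tendsto_of_le_of_le tendsto_const_nhds (hMO2.2 A' hA')
      (fun _ => zero_le) ?_
    intro n
    have h2 : eLpNorm (fun z => D n z - a' z) 2 (volume.restrict K) =
        eLpNorm (fun z => mol n A' z - A' z) 2 (volume.restrict K) := by
      apply eLpNorm_congr_ae
      apply (ae_restrict_iff' hK.measurableSet).2
      refine ae_of_all _ fun z hz => ?_
      change D n z - a' z = mol n A' z - A' z
      rw [hD, hK' z hz]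
    change eLpNorm (fun z => D n z - a' z) 2 (volume.restrict K) ≤ _
    rw [h2]
    exact eLpNorm_mono_measure _ Measure.restrict_le_self
  refine ⟨fun n => mol n F, fun n => (hMO1.1 n F hFc.locallyIntegrable).1, ?_, ?_, ?_⟩
  · refine (hMO2.1 F hFc hFs).tendstoUniformlyOn.congr_right ?_
    intro z hz
    change χ z * f z = f z
    rw [h1 z hz, one_mul]
  · refine key a A _ hA ?_ hdz
    intro z hz
    change χ z * a z + dz χ z * f z = a z
    rw [h1 z hz, (hzero z hz).1, one_mul, zero_mul, add_zero]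
  · refine key b B _ hB ?_ hdzb
    intro z hz
    change χ z * b z + dzb χ z * f z = b z
    rw [h1 z hz, (hzero z hz).2, one_mul, zero_mul, add_zero]

end Pool.Agent.Helper10.QCM
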